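import Pool.Agent.H180.Sg.Gen

/-!
# The exceptional centres and axes of Desargues' theorem in a projective plane

Symmetric designs with `λ = 1` are the projective planes. Fix a centre `C` and an axis `a` (a point and a
line) in a projective plane of order `n`. By the local gap theorem of the library, Desargues' theorem
holds without any failure for some pairs `x`, `y` collinear with `C`, or it fails more than `n ^ 3 / 1000`
times for all `x ≠ y`. In the first case call `(C, a)` exceptional. We describe the set of the exceptional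
pairs in every projective plane.

1. Flags (`C ∈ a`): if a point `C` is in an exceptional flag `(C, b)` and a line `a` is in an exceptional
   flag `(D, a)`, and if `C ∈ a`, then `(C, a)` is exceptional.
2. Antiflags: if there are no exceptional flags, then two exceptional antiflags `(C, a)`, `(C', a')` satisfy
   `C ∈ a'` only if `C' ∈ a`, and `C = C'` if and only if `a = a'`; and there are at most `n ^ 2 + n`
   exceptional antiflags.
3. If `n` is not a prime power, the number of the exceptional antiflags `(C, a)` with a given line `a` or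
   point `C` is zero or divides `n`; the number of the exceptional flags with a given line or point is at
   most `n / 2 - 1`.
4. If `n` is not a prime power and the collineations are transitive on the points, then there is no
   exceptional pair: Desargues' theorem fails more than `n ^ 3 / 1000` times for all centres, axes and
   first pairs.
-/

set_option autoImplicit false

namespace Pool.Agent.Results.MP_3038d1_co.ExceptionalPairs

open Configuration Configuration.ProjectivePlane Finset

section

variable {P : Type} (L : Type) [Membership P L]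

/-- The triangles `A` and `B` are in perspective from the point `O`: `A i`, `B i` and `O` are different
points of a line `l i`, these three lines are different, and `A`, `B` are not collinear. -/
def PerspPt (O : P) (A B : Fin 3 → P) : Prop :=
  (∀ i, A i ≠ O ∧ B i ≠ O ∧ A i ≠ B i) ∧
  (∃ l : Fin 3 → L, Function.Injective l ∧ ∀ i, O ∈ l i ∧ A i ∈ l i ∧ B i ∈ l i) ∧
  (¬ ∃ l : L, ∀ i, A i ∈ l) ∧ ¬ ∃ l : L, ∀ i, B i ∈ l

variable {L}

/-- The sides `A i A j` and `B i B j` meet on the line `a`: some point of `a` is on every line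
through `A i, A j` and on every line through `B i, B j`. -/
def Meet (a : L) (A B : Fin 3 → P) (i j : Fin 3) : Prop :=
  ∃ p, p ∈ a ∧ (∀ l : L, A i ∈ l → A j ∈ l → p ∈ l) ∧ ∀ l : L, B i ∈ l → B j ∈ l → p ∈ l

open Classical in
/-- The failures of Desargues' theorem with centre `C`, axis `a` and first pair of points `x, y`:
pairs of triangles `A, B` in perspective from `C` with `A 0 = x`, `B 0 = y` such that two pairs of
corresponding sides meet on `a` and the third pair does not. -/
noncomputable def failures [Fintype P] (C : P) (a : L) (x y : P) :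
    Finset ((Fin 3 → P) × (Fin 3 → P)) :=
  univ.filter fun t => PerspPt L C t.1 t.2 ∧ t.1 0 = x ∧ t.2 0 = y ∧
    Meet a t.1 t.2 0 1 ∧ Meet a t.1 t.2 0 2 ∧ ¬ Meet a t.1 t.2 1 2

/-- The pair `(C, a)` is exceptional in the plane of order `n`: there are at most `n ^ 3 / 1000` failures
for some points `x ≠ y` off `a`, different from `C`, and collinear with `C`. -/
def Exceptional [Fintype P] [ProjectivePlane P L] (C : P) (a : L) : Prop :=
  ∃ x y : P, x ∉ a ∧ y ∉ a ∧ x ≠ C ∧ y ≠ C ∧ x ≠ y ∧ (∃ l : L, C ∈ l ∧ x ∈ l ∧ y ∈ l) ∧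
    1000 * (failures C a x y).card ≤ order P L ^ 3

end

variable {P L : Type} [Membership P L] [ProjectivePlane P L] [Fintype P] [Fintype L]

theorem exc_iff (C : P) (a : L) : Exceptional C a ↔ Pool.Agent.H180.Mo.Exc a C := by
  constructor
  · rintro ⟨x, y, h1, h2, h3, h4, h5, ⟨l, l1, l2, l3⟩, h6⟩
    refine ⟨x, y, ⟨h1, h2, h3.symm, h4.symm, h5, ?_⟩, h6⟩
    rw [← Pool.Agent.N367.PPD.eq_jn h3.symm l1 l2]
    exact l3
  · rintro ⟨x, y, h, h6⟩
    exact ⟨x, y, h.xa, h.ya, h.xC.symm, h.yC.symm, h.xy,
      ⟨_, Pool.Agent.N367.PPD.jn_left h.xC, Pool.Agent.N367.PPD.jn_right h.xC, h.col⟩, h6⟩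

/-- **The exceptional centres and axes.** -/
theorem result (P L : Type) [Membership P L] [ProjectivePlane P L] [Fintype P] [Fintype L] (n : ℕ)
    (hn : order P L = n) (h3 : 3 ≤ n) :
    -- (1) the exceptional flags
    (∀ (C D : P) (a b : L), C ∈ b → Exceptional C b → D ∈ a → Exceptional D a → C ∈ a →
      Exceptional C a) ∧
    -- (2) the exceptional antiflags if there is no exceptional flag
    ((∀ (C : P) (a : L), C ∈ a → ¬ Exceptional C a) →
      (∀ (C C' : P) (a a' : L), Exceptional C a → Exceptional C' a' →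
        (C ∈ a' → C' ∈ a) ∧ (C = C' ↔ a = a')) ∧
      {p : P × L | Exceptional p.1 p.2}.ncard ≤ n ^ 2 + n) ∧
    (¬ IsPrimePow n →
      -- (3) there are few exceptional pairs
      (∀ a : L, ({C : P | C ∉ a ∧ Exceptional C a}.ncard = 0 ∨
          {C : P | C ∉ a ∧ Exceptional C a}.ncard ∣ n) ∧
        2 * {C : P | C ∈ a ∧ Exceptional C a}.ncard + 2 ≤ n) ∧
      (∀ C : P, ({a : L | C ∉ a ∧ Exceptional C a}.ncard = 0 ∨
          {a : L | C ∉ a ∧ Exceptional C a}.ncard ∣ n) ∧
        2 * {a : L | C ∈ a ∧ Exceptional C a}.ncard + 2 ≤ n) ∧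
      -- (4) point-transitive planes
      ((∀ x y : P, ∃ (σ : Equiv.Perm P) (τ : Equiv.Perm L),
          (∀ (z : P) (l : L), σ z ∈ τ l ↔ z ∈ l) ∧ σ x = y) →
        ∀ (C : P) (a : L), ¬ Exceptional C a)) := by
  subst hn
  simp only [exc_iff]
  refine ⟨?_, ?_, ?_⟩
  · intro C D a b h1 h2 h4 h5 h6
    exact Pool.Agent.H180.Sg.flag_of h3 h1 h4 h2 h5 h6
  · intro hF
    exact ⟨fun C C' a a' h h' => Pool.Agent.H180.Sg.anti_sym h3 hF h h',
      Pool.Agent.H180.Sg.anti_card h3 hF⟩
  · intro hpp
    refine ⟨fun a => ⟨?_, Pool.Agent.H180.Mo.exc_on hpp h3 a⟩,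
      fun C => ⟨?_, Pool.Agent.H180.Mo.exc_on' hpp h3 C⟩, fun ht => ?_⟩
    · rcases Pool.Agent.H180.Mo.exc_off hpp h3 a with h | h
      · left; rw [h]; simp
      · exact Or.inr h
    · rcases Pool.Agent.H180.Mo.exc_off' hpp h3 C with h | h
      · left; rw [h]; simp
      · exact Or.inr h
    · refine Pool.Agent.H180.Sg.transitive hpp h3 fun x y => ?_
      obtain ⟨σ, τ, h1, h2⟩ := ht x y
      exact ⟨⟨(σ, τ), h1⟩, h2⟩

end Pool.Agent.Results.MP_3038d1_co.ExceptionalPairs
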