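import Pool.Agent.H178.GapF

/-!
# Problem MP_3038d1_co: nearly complete symmetric designs are parts of symmetric designs

Let `l (v - 1) = k (k - 1)`, `2 ≤ k ≤ v - 2`. Johnson's bound says that a family of `k`-subsets of a
`v`-set which pairwise meet in at most `l` points has at most `v` members, with equality if and only
if it is a symmetric `(v, k, l)`-design. There is a gap below this bound: a family with `v - δ` members,
where `(2 δ - 1) (m - 1) < v - 1` for `m = k` or `m = v - k`, is contained in a symmetric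
`(v, k, l)`-design, and in only one. If the sets meet pairwise in exactly `l` points, then
`(δ - 1) (m - 1) < v - 1` suffices. So all theorems on the nonexistence of symmetric designs are
robust; this is spelled out for the theorem of Bruck, Ryser and Chowla (whose proof is included),
for projective planes, and for the library theorems on almost all `v` and on almost all parameters.
-/

namespace Pool.Agent.Results.MP_3038d1_co.NearlyCompleteDesigns

open Finset Filter

/-- `D` is a symmetric `(v, k, l)`-design on the set `V` of `v` points: `v` distinct blocks with `k`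
points; each point is in `k` blocks, and each pair of distinct points in `l` blocks. -/
def IsDesign {V : Type} [Fintype V] [DecidableEq V] (k l : ℕ) (D : Finset (Finset V)) : Prop :=
  D.card = Fintype.card V ∧ (∀ B ∈ D, B.card = k) ∧
    (∀ x : V, (D.filter (fun B => x ∈ B)).card = k) ∧
    ∀ x y : V, x ≠ y → (D.filter (fun B => x ∈ B ∧ y ∈ B)).card = l

/-- The number `δ = v - |F|`. -/
def missing {V : Type} [Fintype V] (F : Finset (Finset V)) : ℤ := (Fintype.card V : ℤ) - F.card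

/-- `F` is a nearly complete family of `k`-subsets of the `v`-set `V`: with `δ = v - |F|`, either
the members of `F` pairwise meet in at most `l` points and `(2 δ - 1) (m - 1) < v - 1` for `m = k` or
`m = v - k`, or they pairwise meet in exactly `l` points and `(δ - 1) (m - 1) < v - 1` for `m = k` or
`m = v - k`. -/
def NearlyComplete {V : Type} [Fintype V] [DecidableEq V] (k l : ℕ) (F : Finset (Finset V)) :
    Prop :=
  (∀ B ∈ F, B.card = k) ∧
    (((∀ B ∈ F, ∀ C ∈ F, B ≠ C → (B ∩ C).card ≤ l) ∧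
        ∃ m : ℤ, (m = k ∨ m = (Fintype.card V : ℤ) - k) ∧
          (2 * missing F - 1) * (m - 1) < Fintype.card V - 1) ∨
      ((∀ B ∈ F, ∀ C ∈ F, B ≠ C → (B ∩ C).card = l) ∧
        ∃ m : ℤ, (m = k ∨ m = (Fintype.card V : ℤ) - k) ∧
          (missing F - 1) * (m - 1) < Fintype.card V - 1))

/-- The nontrivial admissible parameters: `2 ≤ k ≤ v - 2`, `l (v - 1) = k (k - 1)`. -/
def Admissible (v k l : ℕ) : Prop := 2 ≤ k ∧ k + 2 ≤ v ∧ l * (v - 1) = k * (k - 1)

/-- The conditions of Bruck, Ryser and Chowla: if `v` is even, then `k - l` is a perfect square; if `v`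
is odd, then `x² = (k - l) y² + (-1) ^ ((v - 1) / 2) l z²` has a nontrivial integral solution. -/
def BruckRyserChowla (v k l : ℕ) : Prop :=
  (v % 2 = 0 → IsSquare (k - l)) ∧
    (v % 2 = 1 → ∃ x y z : ℤ, ¬ (x = 0 ∧ y = 0 ∧ z = 0) ∧
      x ^ 2 = ((k : ℤ) - l) * y ^ 2 + (-1) ^ ((v - 1) / 2) * l * z ^ 2)

/-- There is a nearly complete family for the nontrivial admissible parameters `v, k, l`. -/
def Near (v k l : ℕ) : Prop :=
  Admissible v k l ∧ ∃ F : Finset (Finset (Fin v)), NearlyComplete k l F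

theorem toNear {V : Type} [Fintype V] [DecidableEq V] {k l : ℕ} {F : Finset (Finset V)}
    (h : NearlyComplete k l F) : Pool.Agent.H178.Gap.Near k l F := by
  obtain ⟨h0, h1⟩ := h
  refine ⟨h0, ?_⟩
  unfold missing at h1
  rcases h1 with ⟨h1, m, hm | hm, h2⟩ | ⟨h1, m, hm | hm, h2⟩
  · subst hm
    exact Or.inl ⟨h1, Or.inl h2⟩
  · subst hm
    exact Or.inl ⟨h1, Or.inr h2⟩
  · subst hm
    exact Or.inr ⟨h1, Or.inl h2⟩
  · subst hm
    exact Or.inr ⟨h1, Or.inr h2⟩

open Classical in
/-- **Nearly complete families are parts of symmetric designs.** -/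
theorem result :
    -- the gap theorem
    (∀ (V : Type) [Fintype V] (k l : ℕ) (F : Finset (Finset V)),
      Admissible (Fintype.card V) k l → NearlyComplete k l F →
      ∃! D : Finset (Finset V), F ⊆ D ∧ IsDesign k l D) ∧
    -- Bruck-Ryser-Chowla for nearly complete families
    (∀ v k l : ℕ, Near v k l → BruckRyserChowla v k l) ∧
    -- nearly complete projective planes
    (∀ n : ℕ, 2 ≤ n → n % 4 = 1 ∨ n % 4 = 2 → Near (n ^ 2 + n + 1) (n + 1) 1 →
      ∃ a b : ℕ, n = a ^ 2 + b ^ 2) ∧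
    -- almost all numbers of points
    Tendsto (fun N : ℕ => (((Icc 1 N).filter (fun v => ∃ k l : ℕ, Near v k l ∧
      ¬ (v % 4 = 3 ∧ (IsSquare (k * (v - 1 - k)) ∨ IsSquare ((k - 1) * (v - k)))))).card : ℝ) / N)
      atTop (nhds 0) ∧
    -- almost all parameters
    (∃ C : ℝ, 0 < C ∧ ∀ N : ℕ, 16 ≤ N →
      ({t : ℕ × ℕ × ℕ | t.1 ≤ N ∧ Near t.1 t.2.1 t.2.2}.ncard : ℝ) ≤
        C * ((Real.log (Real.log N)) ^ 2 / Real.log N) *
          ({t : ℕ × ℕ × ℕ | t.1 ≤ N ∧ 0 < t.2.1 ∧ 0 < t.2.2 ∧ t.2.1 < t.1 ∧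
            t.2.2 * (t.1 - 1) = t.2.1 * (t.2.1 - 1)}.ncard : ℝ)) := by
  refine ⟨?_, ?_, ?_, ?_, ?_⟩
  · rintro V _ k l F ⟨hk, hkv, hv⟩ hF
    have hk' : (2 : ℤ) ≤ k := by exact_mod_cast hk
    have hkv' : (k : ℤ) + 2 ≤ Fintype.card V := by exact_mod_cast hkv
    have hvZ : (k : ℤ) * (k - 1) = l * (Fintype.card V - 1) := by
      have h1 : ((l * (Fintype.card V - 1) : ℕ) : ℤ) = ((k * (k - 1) : ℕ) : ℤ) := by rw [hv]
      rw [Nat.cast_mul, Nat.cast_mul, Nat.cast_sub (by omega), Nat.cast_sub (by omega)] at h1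
      push_cast at h1
      linarith
    have hl0 : 0 < l := by
      rcases Nat.eq_zero_or_pos l with h | h
      · subst h
        push_cast at hvZ
        nlinarith
      · exact h
    have hlk : l < k := by
      by_contra h
      have h1 : (k : ℤ) ≤ l := by exact_mod_cast not_lt.1 h
      nlinarith
    have key : ∀ D : Finset (Finset V), Pool.Agent.H178.Gap.IsDes k l D ↔ IsDesign k l D := by
      intro D
      constructor
      · intro h
        exact ⟨h.1, h.2.1, Pool.Agent.H178.Gap.des_r hl0 hlk hvZ h, h.2.2⟩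
      · rintro ⟨h1, h2, -, h3⟩
        exact ⟨h1, h2, h3⟩
    obtain ⟨D, ⟨h1, h2⟩, h3⟩ := Pool.Agent.H178.Gap.near hk hkv hv F (toNear hF)
    exact ⟨D, ⟨h1, (key D).1 h2⟩, fun D' h => h3 D' ⟨h.1, (key D').2 h.2⟩⟩
  · rintro v k l ⟨⟨hk, hkv, hv⟩, F, hF⟩
    have := Pool.Agent.H178.Gap.near_brc (V := Fin v) hk (by rwa [Fintype.card_fin])
      (by rwa [Fintype.card_fin]) F (toNear hF)
    rw [Fintype.card_fin] at this
    exact this
  · rintro n hn h4 ⟨-, F, hF⟩
    exact Pool.Agent.H178.Gap.near_plane hn h4 (Fintype.card_fin _) F (toNear hF)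
  · refine squeeze_zero (fun N => by positivity) (fun N => ?_) Pool.Agent.H178.Gap.almost_all
    refine div_le_div_of_nonneg_right ?_ (by positivity)
    refine Nat.cast_le.2 (Finset.card_le_card ?_)
    intro v hv
    rw [Finset.mem_filter] at hv ⊢
    obtain ⟨h0, k, l, ⟨⟨h1, h2, h3⟩, F, hF⟩, h4⟩ := hv
    exact ⟨h0, k, l, h1, h2, h3, ⟨F, toNear hF⟩, h4⟩
  · obtain ⟨C, hC, h⟩ := Pool.Agent.H178.Gap.proportion_near
    refine ⟨C, hC, fun N hN => ?_⟩
    have hlv : ∀ v k l : ℕ, 0 < k → k < v → l * (v - 1) = k * (k - 1) → l ≤ v := by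
      intro v k l hk hkv h
      have h1 : l * (v - 1) ≤ v * (v - 1) := by
        rw [h]
        exact Nat.mul_le_mul hkv.le (by omega)
      exact Nat.le_of_mul_le_mul_right h1 (by omega)
    have e1 : {t : ℕ × ℕ × ℕ | t.1 ≤ N ∧ 0 < t.2.1 ∧ 0 < t.2.2 ∧ t.2.1 < t.1 ∧
        t.2.2 * (t.1 - 1) = t.2.1 * (t.2.1 - 1)} =
        (Pool.Agent.H177R2.SD.Admissible N : Set (ℕ × ℕ × ℕ)) := by
      ext ⟨v, k, l⟩
      simp only [Pool.Agent.H177R2.SD.Admissible, Set.mem_ofPred_eq, Finset.coe_filter,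
        Finset.mem_product, Finset.mem_Icc]
      constructor
      · rintro ⟨h1, h2, h3, h4, h5⟩
        have := hlv v k l h2 h4 h5
        exact ⟨⟨⟨by omega, h1⟩, ⟨h2, by omega⟩, ⟨h3, by omega⟩⟩, h4, h5⟩
      · rintro ⟨⟨⟨h1, h2⟩, ⟨h3, h4⟩, ⟨h5, h6⟩⟩, h7, h8⟩
        exact ⟨h2, h3, h5, h7, h8⟩
    rw [e1, Set.ncard_coe_finset]
    refine le_trans ?_ (h N hN)
    rw [← Set.ncard_coe_finset]
    refine Nat.cast_le.2 (Set.ncard_le_ncard ?_ (Finset.finite_toSet _))
    rintro ⟨v, k, l⟩ ⟨h1, ⟨h2, h3, h4⟩, F, hF⟩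
    simp only at h1 h2 h3 h4 F hF
    have hl : 0 < l := by
      rcases Nat.eq_zero_or_pos l with h | h
      · subst h
        rw [zero_mul] at h4
        have : 0 < k * (k - 1) := Nat.mul_pos (by omega) (by omega)
        omega
      · exact h
    have := hlv v k l (by omega) (by omega) h4
    simp only [Finset.coe_filter, Set.mem_ofPred_eq, Pool.Agent.H177R2.SD.Admissible,
      Finset.mem_filter, Finset.mem_product, Finset.mem_Icc]
    exact ⟨⟨⟨⟨by omega, h1⟩, ⟨by omega, by omega⟩, ⟨hl, by omega⟩⟩, by omega, h4⟩, h2, h3,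
      F, toNear hF⟩

end Pool.Agent.Results.MP_3038d1_co.NearlyCompleteDesigns
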