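import Pool.Agent.H183.MU.LIFT
import Pool.Agent.H183.MU.CNT
import Pool.Agent.H183.MU.DIR
import Pool.Agent.H183.MU.CLSROOT
import Pool.Agent.H183.SQ.PAIRS2
import Pool.Agent.H183.SQ.DENS2
import Pool.Agent.H183.SQ.ROOTQ
import Pool.Agent.H183.SQ.SMU
import Pool.Agent.H183.GL.LIFT2
import Pool.Agent.H183.NI.IMG
import Pool.Agent.H183.NI.MULTF
import Pool.Agent.H183.NI.FIXF
import Pool.Agent.H183.NI.PUSHF
import Pool.Agent.H183.NI.EVENF
import Pool.Agent.H183.NI.PARG
import Pool.Agent.H183.NI.COMM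
import Pool.Agent.H183.NI.KEYQN
import Pool.Agent.H183.NI.CNTP
import Pool.Agent.H183.NI.CUB
import Pool.Agent.H183.NI.SMT
import Pool.Agent.H183.NI.CFL
import Pool.Agent.H183.NI.QFINN
import Pool.Agent.H183.NI.REGN

/-!
# Symmetric designs of square order with a nilpotent regular group, `lam` bounded

The order of a symmetric `(v, k, lam)`-design is `k - lam`. If the order is a square `u ^ 2` (which is
always so if `v` is even) then the theorem of Bruck, Ryser and Chowla gives nothing. Let `H` be a regular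
group of automorphisms, `A = H / H'`. The second multiplier theorem holds for the image in `A` of the
difference set, with the condition `p ^ 2 > lam |H'|` for a prime `p ∣ u`. If `H` is nilpotent then `|H'|` is at
most the part of `v` made of the primes `q` with `q ^ 3 ∣ v`, which is small for almost all `u`. If
a power of `p` is `-1` modulo `w₁ w₂`, where `w₁ ∣ k + u` and `w₂ ∣ k - u` are odd primes, then the
characters of the quotient of order `w₁ w₂` take the values `± u`, a contradiction. A sieve shows that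
almost all `u` have such prime factors.
-/

set_option autoImplicit false

namespace Pool.Agent.Results.MP_3038d1_co.NilpotentSquareOrders

/-- The sets `B i` (`i : Fin v`) are the blocks of a symmetric `(v, k, lam)`-design on the points
`Fin v`, `2 ≤ k < v`, and `H` is a group of automorphisms of the design acting regularly (sharply
transitively) on the points. -/
structure IsRegularDesign (v k lam : ℕ) (B : Fin v → Finset (Fin v))
    (H : Subgroup (Equiv.Perm (Fin v))) : Prop where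
  two_le : 2 ≤ k
  lt : k < v
  size : ∀ i, (B i).card = k
  pair : ∀ x y : Fin v, x ≠ y →
    (Finset.univ.filter (fun i => x ∈ B i ∧ y ∈ B i)).card = lam
  regular : ∀ x y : Fin v, ∃! h : Equiv.Perm (Fin v), h ∈ H ∧ h x = y
  aut : ∀ h ∈ H, ∀ i, ∃ j, (B i).image h = B j

/-- Let `Λ`, `C` and `ε > 0` be given. For all large `X` there are at most `ε X` integers `1 ≤ u ≤ X` such
that some symmetric `(v, u ^ 2 + lam, lam)`-design with `1 ≤ lam ≤ Λ` has a group of automorphisms which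
acts regularly on the points and which is nilpotent or has a commutator subgroup of order at
most `C`. -/
theorem result (Λ C : ℕ) (ε : ℝ) (hε : 0 < ε) : ∃ X₀ : ℕ, ∀ X : ℕ, X₀ ≤ X →
    ({u : ℕ | 1 ≤ u ∧ u ≤ X ∧ ∃ lam : ℕ, 1 ≤ lam ∧ lam ≤ Λ ∧
      ∃ (v : ℕ) (B : Fin v → Finset (Fin v)) (H : Subgroup (Equiv.Perm (Fin v))),
        IsRegularDesign v (u ^ 2 + lam) lam B H ∧
        (Group.IsNilpotent H ∨ Nat.card (commutator H) ≤ C)}.ncard : ℝ) ≤ ε * X := by
  obtain ⟨X₀, hX₀⟩ := Pool.Agent.H183.NI.t_QFINN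
    (Pool.Agent.H183.NI.t_KEYQN Pool.Agent.H183.NI.t_IMG
      (Pool.Agent.H183.NI.t_MULTF (Pool.Agent.H183.GL.t_LIFT2 Pool.Agent.H183.MU.t_LIFT))
      Pool.Agent.H183.NI.t_FIXF Pool.Agent.H183.NI.t_TRF Pool.Agent.H183.NI.t_PUSHF
      Pool.Agent.H183.NI.t_EVENF Pool.Agent.H183.NI.t_PARG)
    (Pool.Agent.H183.NI.t_CFL (Pool.Agent.H183.NI.t_CUB Pool.Agent.H183.NI.t_CNTP)
      (Pool.Agent.H183.NI.t_SMT Pool.Agent.H183.NI.t_CNTP))
    Pool.Agent.H183.NI.t_COMM Pool.Agent.H183.NI.t_PARG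
    (Pool.Agent.H183.SQ.t_DENS2 Pool.Agent.H183.MU.t_CNT Pool.Agent.H183.SQ.t_PAIRS2)
    Pool.Agent.H183.MU.t_DIR Pool.Agent.H183.MU.t_CLS Pool.Agent.H183.SQ.t_ROOTQ
    Pool.Agent.H183.SQ.t_SMU Λ C ε hε
  refine ⟨X₀, fun X hX => le_trans ?_ (hX₀ X hX)⟩
  have hfin : {u : ℕ | 1 ≤ u ∧ u ≤ X ∧ ∃ lam : ℕ, 1 ≤ lam ∧ lam ≤ Λ ∧
      Pool.Agent.H183.NI.HasNQ C u lam}.Finite := (Set.finite_Iic X).subset fun u hu => hu.2.1
  exact_mod_cast Set.ncard_le_ncard (fun u hu => by
    obtain ⟨h1, h2, lam, h3, h4, v, B, H, hd, hH⟩ := hu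
    exact ⟨h1, h2, lam, h3, h4, Pool.Agent.H183.NI.hasNQ_of_reg
      ⟨hd.lt, hd.size, hd.pair, hd.regular, hd.aut⟩ h3 (hd.two_le.trans hd.lt.le) hH⟩) hfin

end Pool.Agent.Results.MP_3038d1_co.NilpotentSquareOrders
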