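import Pool.Agent.H180.Pa.Oval

/-!
# Pascal's theorem fails often for the ovals of planes whose order is not a prime power

Let `O` be an oval of a projective plane of order `n` (`n + 1` points, no three on a line).  A point
`x` off `O` defines an involution `σ_x` of `O`: it exchanges the two points of `O` on every secant
through `x` and fixes the points whose tangent passes through `x`.  Pascal's theorem for the
(possibly degenerate) hexagons inscribed in `O` says that `σ_x σ_y σ_z` is an involution for all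
collinear `x`, `y`, `z`; Buekenhout's theorem says that the plane is Desarguesian if this holds without
exception.  Here: if it holds with at most `n ^ 5 / 15000` exceptions among the (about `n ^ 5`)
collinear triples, then `n` is a prime power.

Proof.  On a line `l` the involutions act sharply transitively on the points of `O` off `l`.  If most
products of three are involutions, then most products `σ_x σ_y` have a transitive set of common
centralising elements and are determined by the image of one point; so most products of three are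
again involutions `σ_w` with `w` on `l`.  The products `σ_x σ_y` which have many representations form a
set `T` of at most `n ^ 3 - n` permutations (a product not equal to `1` has many representations on one
line only), and `σ_x σ_u σ_u σ_y = σ_x σ_y` shows that `T` is nearly closed under products.  So `T` is
close to a group, which turns out to be sharply three-transitive on `O`; hence `n` is a prime power.
-/

set_option autoImplicit false

open Configuration Configuration.ProjectivePlane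

namespace Pool.Agent.Results.MP_3038d1_co.PascalFails

/-- `O` is an oval: it consists of `n + 1` points, no three of which are on a line. -/
def Oval (L : Type) {P : Type} [Membership P L] [ProjectivePlane P L] (O : Set P) : Prop :=
  O.ncard = order P L + 1 ∧
    ∀ a ∈ O, ∀ b ∈ O, ∀ c ∈ O, ∀ m : L, a ∈ m → b ∈ m → c ∈ m → a = b ∨ b = c ∨ a = c

/-- The line `m` joins the points `a` and `b` of `O`: its points on `O` are `a` and `b`. (So `m` is the
tangent at `a` if `a = b`.) -/
def Side {L P : Type} [Membership P L] (O : Set P) (a b : P) (m : L) : Prop :=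
  a ∈ m ∧ b ∈ m ∧ ∀ c ∈ O, c ∈ m → c = a ∨ c = b

/-- The involution `σ_x` of `O` with centre `x` exchanges `a` and `b` (fixes `a` if `a = b`). -/
def Swaps (L : Type) {P : Type} [Membership P L] (O : Set P) (x a b : P) : Prop :=
  a ∈ O ∧ b ∈ O ∧ ∃ m : L, x ∈ m ∧ Side O a b m

/-- The square of the product `σ_z σ_y σ_x` is the identity. -/
def IsInvolution (L : Type) {P : Type} [Membership P L] (O : Set P) (x y z : P) : Prop :=
  ∀ a b c d e f g : P, Swaps L O x a b → Swaps L O y b c → Swaps L O z c d →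
    Swaps L O x d e → Swaps L O y e f → Swaps L O z f g → g = a

/-- The triples of points `x`, `y`, `z` off `O` and on a common line for which the product of the
three involutions with centres `x`, `y`, `z` is not an involution. -/
def BadTriples (L : Type) {P : Type} [Membership P L] (O : Set P) : Set (P × P × P) :=
  {t | t.1 ∉ O ∧ t.2.1 ∉ O ∧ t.2.2 ∉ O ∧ (∃ m : L, t.1 ∈ m ∧ t.2.1 ∈ m ∧ t.2.2 ∈ m) ∧
    ¬ IsInvolution L O t.1 t.2.1 t.2.2}

/-- A hexagon inscribed in `O`: six points of `O`, of which only neighbours may coincide. -/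
def Hexagon {P : Type} (O : Set P) (a : Fin 6 → P) : Prop :=
  (∀ i, a i ∈ O) ∧ ∀ i, a i ≠ a (i + 2) ∧ a i ≠ a (i + 3)

/-- Pascal's theorem for the hexagon `a`: if the opposite sides `m 0` and `m 3` meet in `x`, the sides
`m 1` and `m 4` in `y`, and the sides `m 2` and `m 5` in `z`, then `x`, `y`, `z` are on a line. -/
def Pascal (L : Type) {P : Type} [Membership P L] (O : Set P) (a : Fin 6 → P) : Prop :=
  ∀ (m : Fin 6 → L) (x y z : P), (∀ i, Side O (a i) (a (i + 1)) (m i)) →
    x ∈ m 0 → x ∈ m 3 → y ∈ m 1 → y ∈ m 4 → z ∈ m 2 → z ∈ m 5 → ∃ k : L, x ∈ k ∧ y ∈ k ∧ z ∈ k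

/-- The hexagons inscribed in `O` for which Pascal's theorem fails. -/
def BadHexagons (L : Type) {P : Type} [Membership P L] (O : Set P) : Set (Fin 6 → P) :=
  {a | Hexagon O a ∧ ¬ Pascal L O a}

open Pool.Agent.H180.Pa in
theorem swaps_iff {L P : Type} [Membership P L] (O : Set P) (x a b : P) :
    Swaps L O x a b ↔ Sec L O x a b := by
  unfold Swaps Sec Side
  constructor
  · rintro ⟨h1, h2, m, h3, h4, h5, h6⟩; exact ⟨h1, h2, m, h3, h4, h5, h6⟩
  · rintro ⟨h1, h2, m, h3, h4, h5, h6⟩; exact ⟨h1, h2, m, h3, h4, h5, h6⟩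

section

open Pool.Agent.H180.Pa
open scoped Classical

variable {P L : Type} [Membership P L] [ProjectivePlane P L] [Fintype P] [Fintype L] {O : Set P}

theorem fail_of (hO : Pool.Agent.H180.Pa.Oval L O) {x y z : {x : P // x ∉ O}}
    (h : ¬ (inv hO x * inv hO y * inv hO z = inv hO z * inv hO y * inv hO x)) :
    ∃ a : {a : P // a ∈ O}, inv hO z (inv hO y (inv hO x (inv hO z (inv hO y (inv hO x a))))) ≠ a := by
  by_contra hcon
  push Not at hcon
  apply h
  have e1 : inv hO z * inv hO y * inv hO x * (inv hO z * inv hO y * inv hO x) = 1 := by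
    ext a
    simp only [Equiv.Perm.mul_apply]
    rw [hcon a]; rfl
  have e2 : inv hO x * inv hO y * inv hO z * (inv hO z * inv hO y * inv hO x) = 1 := by
    calc inv hO x * inv hO y * inv hO z * (inv hO z * inv hO y * inv hO x)
        = inv hO x * (inv hO y * ((inv hO z * inv hO z) * inv hO y)) * inv hO x := by
          simp only [mul_assoc]
      _ = 1 := by rw [inv_mul, one_mul, inv_mul, mul_one, inv_mul]
  have e3 := mul_right_cancel (e2.trans e1.symm)
  exact e3

theorem bad_le (hO : Pool.Agent.H180.Pa.Oval L O) :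
    (sys hO).Bad.card ≤ (BadTriples L O).ncard := by
  have hfin : (BadTriples L O).Finite := Set.toFinite _
  rw [Set.ncard_eq_toFinset_card _ hfin]
  apply Finset.card_le_card_of_injOn
    (fun t : ({x : P // x ∉ O} × {x : P // x ∉ O}) × {x : P // x ∉ O} =>
      ((t.1.1 : P), (t.1.2 : P), (t.2 : P)))
  · rintro ⟨⟨x, y⟩, z⟩ ht
    obtain ⟨⟨l, h1, h2, h3⟩, h4⟩ := (sys hO).mem_Bad.1 (Finset.mem_coe.1 ht)
    refine Finset.mem_coe.2 (hfin.mem_toFinset.2 ⟨x.2, y.2, z.2, ⟨l, h1, h2, h3⟩, ?_⟩)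
    obtain ⟨a, ha⟩ := fail_of hO h4
    intro hI
    apply ha
    apply Subtype.ext
    exact hI _ _ _ _ _ _ _ ((swaps_iff _ _ _ _).2 (inv_spec hO x a))
      ((swaps_iff _ _ _ _).2 (inv_spec hO y _)) ((swaps_iff _ _ _ _).2 (inv_spec hO z _))
      ((swaps_iff _ _ _ _).2 (inv_spec hO x _)) ((swaps_iff _ _ _ _).2 (inv_spec hO y _))
      ((swaps_iff _ _ _ _).2 (inv_spec hO z _))
  · rintro ⟨⟨x, y⟩, z⟩ _ ⟨⟨x', y'⟩, z'⟩ _ h
    simp only [Prod.mk.injEq] at h
    obtain ⟨h1, h2, h3⟩ := h
    rw [Subtype.ext h1, Subtype.ext h2, Subtype.ext h3]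

theorem side_ex (hO : Pool.Agent.H180.Pa.Oval L O) {a b : P} (ha : a ∈ O) (hb : b ∈ O) :
    ∃ m : L, Side O a b m := by
  by_cases hab : a = b
  · subst hab
    obtain ⟨m, ⟨h1, h2⟩, _⟩ := tangent hO ha
    exact ⟨m, h1, h1, fun c hc hcm => Or.inl (h2 c hc hcm)⟩
  · obtain ⟨m, h1, h2⟩ := ex_line (L := L) a b
    refine ⟨m, h1, h2, fun c hc hcm => ?_⟩
    rcases hO.2 a ha b hb c hc m h1 h2 hcm with e | e | e
    · exact absurd e hab
    · exact Or.inr e.symm
    · exact Or.inl e.symm

theorem side_un (hO : Pool.Agent.H180.Pa.Oval L O) {a b : P} (ha : a ∈ O) {m m' : L}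
    (h : Side O a b m) (h' : Side O a b m') : m = m' := by
  obtain ⟨h1, h2, h3⟩ := h
  obtain ⟨h1', h2', h3'⟩ := h'
  by_cases hab : a = b
  · subst hab
    obtain ⟨t, _, ht⟩ := tangent hO ha
    rw [ht m h1 (fun c hc hcm => by rcases h3 c hc hcm with e | e <;> exact e),
      ht m' h1' (fun c hc hcm => by rcases h3' c hc hcm with e | e <;> exact e)]
  · exact line_uniq hab h1 h2 h1' h2'

/-- the hexagon of a triple whose product is not an involution -/
theorem hex_of (hO : Pool.Agent.H180.Pa.Oval L O) {x y z : {x : P // x ∉ O}} {l : L}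
    (hx : (x : P) ∈ l) (hy : (y : P) ∈ l) (hz : (z : P) ∈ l)
    (h : ¬ (inv hO x * inv hO y * inv hO z = inv hO z * inv hO y * inv hO x)) :
    ∃ a : Fin 6 → P, a ∈ BadHexagons L O ∧ Sec L O (x : P) (a 0) (a 1) ∧ Sec L O (y : P) (a 1) (a 2) ∧
      Sec L O (z : P) (a 2) (a 3) ∧ Sec L O (x : P) (a 3) (a 4) ∧ Sec L O (y : P) (a 4) (a 5) ∧
      a 2 ∉ l ∧ (x : P) ≠ y := by
  obtain ⟨a, hfail⟩ := fail_of hO h
  have hii : ∀ (w : {x : P // x ∉ O}) (p : {a : P // a ∈ O}), inv hO w (inv hO w p) = p := by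
    intro w p
    rw [← Equiv.Perm.mul_apply, inv_mul]; rfl
  have hxy : x ≠ y := by
    rintro rfl
    apply h
    rw [inv_mul, one_mul, mul_assoc, inv_mul, mul_one]
  have hyz : y ≠ z := by
    rintro rfl
    apply h
    rw [inv_mul, one_mul, mul_assoc, inv_mul, mul_one]
  have hxz : x ≠ z := by
    rintro rfl
    exact h rfl
  have hal : (a : P) ∉ l := by
    intro hal
    apply hfail
    have s1 : ∀ (w : {x : P // x ∉ O}) (p : {a : P // a ∈ O}), (w : P) ∈ l → (p : P) ∈ l →
        inv hO w p = inv hO x p := fun w p hw hp => (sys hO).same w x l p hw hx hp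
    have q1 := inv_mem hO hx hal
    have e1 : inv hO y (inv hO x a) = a := by rw [s1 y _ hy q1, hii]
    rw [e1]
    rw [s1 z a hz hal]
    rw [hii]
    rw [s1 y a hy hal, s1 z _ hz q1, hii]
  have pr : ∀ (w : {x : P // x ∉ O}) (p : {a : P // a ∈ O}), (w : P) ∈ l → (p : P) ∉ l →
      (inv hO w p : P) ∉ l := by
    intro w p hw hp hc
    apply hp
    have := inv_mem hO hw hc
    rwa [hii] at this
  have unq : ∀ (w v : {x : P // x ∉ O}) (p : {a : P // a ∈ O}), (w : P) ∈ l → (v : P) ∈ l →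
      (p : P) ∉ l → inv hO w p = inv hO v p → w = v := fun w v p hw hv hp he =>
    (sys hO).un l p w v hp hw hv he
  -- the six vertices
  obtain ⟨b, hb⟩ : ∃ b, b = inv hO x a := ⟨_, rfl⟩
  obtain ⟨c, hc⟩ : ∃ c, c = inv hO y b := ⟨_, rfl⟩
  obtain ⟨d, hd⟩ : ∃ d, d = inv hO z c := ⟨_, rfl⟩
  obtain ⟨e, he⟩ : ∃ e, e = inv hO x d := ⟨_, rfl⟩
  obtain ⟨f, hf⟩ : ∃ f, f = inv hO y e := ⟨_, rfl⟩
  have hga : inv hO z f ≠ a := by
    rw [hf, he, hd, hc, hb]; exact hfail
  have hbl : (b : P) ∉ l := by rw [hb]; exact pr x a hx hal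
  have hcl : (c : P) ∉ l := by rw [hc]; exact pr y b hy hbl
  have hdl : (d : P) ∉ l := by rw [hd]; exact pr z c hz hcl
  have hel : (e : P) ∉ l := by rw [he]; exact pr x d hx hdl
  have hfl : (f : P) ∉ l := by rw [hf]; exact pr y e hy hel
  have ba : inv hO x b = a := by rw [hb, hii]
  have cb : inv hO y c = b := by rw [hc, hii]
  have dc : inv hO z d = c := by rw [hd, hii]
  have ed : inv hO x e = d := by rw [he, hii]
  have fe : inv hO y f = e := by rw [hf, hii]
  have nac : a ≠ c := by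
    intro e1
    exact hxy (unq x y b hx hy hbl (by rw [ba, ← hc, e1]))
  have nbd : b ≠ d := by
    intro e1
    exact hyz (unq y z c hy hz hcl (by rw [cb, ← hd, e1]))
  have nce : c ≠ e := by
    intro e1
    exact hxz (unq x z d hx hz hdl (by rw [dc, ← he, e1]))
  have ndf : d ≠ f := by
    intro e1
    exact hxy (unq x y e hx hy hel (by rw [ed, ← hf, e1]))
  have nea : e ≠ a := by
    intro e1
    apply nbd
    rw [hb, ← e1, ed]
  have nfb : f ≠ b := by
    intro e1
    apply nce
    rw [hc, ← e1, fe]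
  have nad : a ≠ d := by
    intro e1
    have e2 : e = b := by rw [he, ← e1, hb]
    have e3 : f = c := by rw [hf, e2, hc]
    exact hga (by rw [e3, ← hd, e1])
  have nbe : b ≠ e := by
    intro e1
    exact nad (by rw [← ba, e1, ed])
  have ncf : c ≠ f := by
    intro e1
    exact nbe (by rw [← cb, e1, fe])
  have V : ∀ {p q : {a : P // a ∈ O}}, p ≠ q → (p : P) ≠ q := fun hpq he => hpq (Subtype.ext he)
  have s0 := inv_spec hO x a
  rw [← hb] at s0
  have s1 := inv_spec hO y b
  rw [← hc] at s1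
  have s2 := inv_spec hO z c
  rw [← hd] at s2
  have s3 := inv_spec hO x d
  rw [← he] at s3
  have s4 := inv_spec hO y e
  rw [← hf] at s4
  refine ⟨![a, b, c, d, e, f], ⟨⟨?_, ?_⟩, ?_⟩, s0, s1, s2, s3, s4, hcl, fun e1 => hxy (Subtype.ext e1)⟩
  · intro i
    fin_cases i
    · exact a.2
    · exact b.2
    · exact c.2
    · exact d.2
    · exact e.2
    · exact f.2
  · intro i
    fin_cases i
    · exact ⟨V nac, V nad⟩
    · exact ⟨V nbd, V nbe⟩
    · exact ⟨V nce, V ncf⟩
    · exact ⟨V ndf, V nad.symm⟩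
    · exact ⟨V nea, V nbe.symm⟩
    · exact ⟨V nfb, V ncf.symm⟩
  · intro hP
    obtain ⟨_, _, m0, x0, a0⟩ := s0
    obtain ⟨_, _, m1, x1, a1⟩ := s1
    obtain ⟨_, _, m2, x2, a2⟩ := s2
    obtain ⟨_, _, m3, x3, a3⟩ := s3
    obtain ⟨_, _, m4, x4, a4⟩ := s4
    obtain ⟨m5, a5⟩ := side_ex hO f.2 a.2
    have hz5 : (z : P) ∉ m5 := by
      intro hz5
      apply hga
      exact inv_eq hO ⟨f.2, a.2, m5, hz5, a5⟩
    have h25 : m2 ≠ m5 := fun e1 => hz5 (e1 ▸ x2)
    obtain ⟨w, hw2, hw5⟩ := ex_pt (P := P) h25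
    obtain ⟨k, k1, k2, k3⟩ := hP ![m0, m1, m2, m3, m4, m5] x y w (by
      intro i
      fin_cases i
      · exact a0
      · exact a1
      · exact a2
      · exact a3
      · exact a4
      · exact a5) x0 x3 x1 x4 hw2 hw5
    have hkl : k = l := line_uniq (fun e1 => hxy (Subtype.ext e1)) k1 k2 hx hy
    subst hkl
    have hm2 : m2 ≠ k := fun e1 => hcl (e1 ▸ a2.1)
    have hwz : w = z := pt_uniq hm2 hw2 x2 k3 hz
    exact hz5 (hwz ▸ hw5)

theorem bad_le_hex (hO : Pool.Agent.H180.Pa.Oval L O) :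
    (sys hO).Bad.card ≤ (BadHexagons L O).ncard := by
  have hfin : (BadHexagons L O).Finite := Set.toFinite _
  rw [Set.ncard_eq_toFinset_card _ hfin]
  have hex : ∀ t : ({x : P // x ∉ O} × {x : P // x ∉ O}) × {x : P // x ∉ O}, t ∈ (sys hO).Bad →
      ∃ a : Fin 6 → P, a ∈ BadHexagons L O ∧ Sec L O (t.1.1 : P) (a 0) (a 1) ∧
        Sec L O (t.1.2 : P) (a 1) (a 2) ∧ Sec L O (t.2 : P) (a 2) (a 3) ∧
        Sec L O (t.1.1 : P) (a 3) (a 4) ∧ Sec L O (t.1.2 : P) (a 4) (a 5) ∧
        ∃ l : L, (t.1.1 : P) ∈ l ∧ (t.1.2 : P) ∈ l ∧ (t.2 : P) ∈ l ∧ a 2 ∉ l ∧ (t.1.1 : P) ≠ t.1.2 := by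
    rintro ⟨⟨x, y⟩, z⟩ ht
    obtain ⟨⟨l, h1, h2, h3⟩, h4⟩ := (sys hO).mem_Bad.1 ht
    obtain ⟨a, ha, k1, k2, k3, k4, k5, k6, k7⟩ := hex_of hO h1 h2 h3 h4
    exact ⟨a, ha, k1, k2, k3, k4, k5, l, h1, h2, h3, k6, k7⟩
  have : Nonempty P := by
    obtain ⟨p, _⟩ := @Configuration.ProjectivePlane.exists_config P L _ _
    exact ⟨p⟩
  choose! f hf1 hf2 hf3 hf4 hf5 hf6 hf7 using hex
  apply Finset.card_le_card_of_injOn f
  · intro t ht
    exact Finset.mem_coe.2 (hfin.mem_toFinset.2 (hf1 t (Finset.mem_coe.1 ht)))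
  · rintro ⟨⟨x, y⟩, z⟩ ht ⟨⟨x', y'⟩, z'⟩ ht' heq
    have ht1 := Finset.mem_coe.1 ht
    have ht2 := Finset.mem_coe.1 ht'
    have A1 := hf1 _ ht1
    have A2 := hf2 _ ht1
    have A3 := hf3 _ ht1
    have A4 := hf4 _ ht1
    have A5 := hf5 _ ht1
    have A6 := hf6 _ ht1
    obtain ⟨l, l1, l2, l3, l4, l5⟩ := hf7 _ ht1
    have B2 := hf2 _ ht2
    have B3 := hf3 _ ht2
    have B4 := hf4 _ ht2
    have B5 := hf5 _ ht2
    have B6 := hf6 _ ht2
    obtain ⟨l', l1', l2', l3', l4', l5'⟩ := hf7 _ ht2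
    rw [← heq] at B2 B3 B4 B5 B6 l4'
    set a := f ((x, y), z) with hadef
    simp only at A2 A3 A4 A5 A6 l1 l2 l3 l5 B2 B3 B4 B5 B6 l1' l2' l3' l5'
    obtain ⟨⟨hin, hne⟩, _⟩ := A1
    obtain ⟨_, _, m0, x0, s0⟩ := A2
    obtain ⟨_, _, m0', x0', s0'⟩ := B2
    obtain ⟨_, _, m1, x1, s1⟩ := A3
    obtain ⟨_, _, m1', x1', s1'⟩ := B3
    obtain ⟨_, _, m3, x3, s3⟩ := A5
    obtain ⟨_, _, m3', x3', s3'⟩ := B5
    obtain ⟨_, _, m4, x4, s4⟩ := A6
    obtain ⟨_, _, m4', x4', s4'⟩ := B6
    have e0 := side_un hO (hin 0) s0 s0'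
    have e1 := side_un hO (hin 1) s1 s1'
    have e3 := side_un hO (hin 3) s3 s3'
    have e4 := side_un hO (hin 4) s4 s4'
    subst e0 e1 e3 e4
    have h03 : m0 ≠ m3 := by
      rintro rfl
      rcases s0.2.2 (a 3) (hin 3) s3.1 with e | e
      · exact (hne 0).2 e.symm
      · exact (hne 1).1 e.symm
    have h14 : m1 ≠ m4 := by
      rintro rfl
      rcases s1.2.2 (a 4) (hin 4) s4.1 with e | e
      · exact (hne 1).2 e.symm
      · exact (hne 2).1 e.symm
    have hxx : (x : P) = x' := pt_uniq h03 x0 x0' x3 x3'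
    have hyy : (y : P) = y' := pt_uniq h14 x1 x1' x4 x4'
    have hll : l = l' := by
      rw [← hxx] at l1'
      rw [← hyy] at l2'
      exact line_uniq l5 l1 l2 l1' l2'
    subst hll
    have hzz : (z : P) = z' := sec_line_un hO l4 l3 l3' A4 B4
    rw [Subtype.ext hxx, Subtype.ext hyy, Subtype.ext hzz]

end

/-- Let `O` be an oval of a projective plane of order `n ≥ 1000`. (1) If there are at most
`n ^ 5 / 15000` collinear triples of points off `O` for which the product of the three involutions of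
`O` is not an involution, then `n` is a prime power. (2) If Pascal's theorem fails for at most
`n ^ 5 / 15000` of the hexagons inscribed in `O`, then `n` is a prime power. -/
theorem result (P L : Type) [Finite P] [Finite L] [Membership P L] [ProjectivePlane P L] (O : Set P)
    (hO : Oval L O) (hn : 1000 ≤ order P L) :
    (15000 * (BadTriples L O).ncard ≤ order P L ^ 5 → IsPrimePow (order P L)) ∧
    (15000 * (BadHexagons L O).ncard ≤ order P L ^ 5 → IsPrimePow (order P L)) := by
  classical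
  have := Fintype.ofFinite P
  have := Fintype.ofFinite L
  have hO' : Pool.Agent.H180.Pa.Oval L O := hO
  refine ⟨fun h => ?_, fun h => ?_⟩
  · have h1 := bad_le hO'
    exact (Pool.Agent.H180.Pa.sys hO').main hn (by omega)
  · have h1 := bad_le_hex hO'
    exact (Pool.Agent.H180.Pa.sys hO').main hn (by omega)

end Pool.Agent.Results.MP_3038d1_co.PascalFails
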